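import Pool.Agent.Helper56.RC.St
import Pool.Agent.Helper44.RC.M_INTL

/-! # Project RC: module C0N -/

open MeasureTheory Set Filter Metric

namespace Pool.Agent.Helper86.RC

open Helper49.LT hiding sg
open Helper49.RC Helper87.RC Helper44.RC Helper56.RC

variable {β P : ℝ → ℂ}

/-- the full mean of `e^{-int}` vanishes for `n ≠ 0` -/
private theorem int_ee_ne {n : ℤ} (hn : n ≠ 0) :
    ∫ t in (0 : ℝ)..(2 * Real.pi), ee (-((n : ℝ) * t)) = 0 := by
  have hc : (-(n : ℂ) * Complex.I) ≠ 0 := by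
    refine mul_ne_zero (neg_ne_zero.2 ?_) Complex.I_ne_zero
    exact_mod_cast hn
  have e : (fun t : ℝ => ee (-((n : ℝ) * t))) = fun t : ℝ => Complex.exp ((-(n : ℂ) * Complex.I) * t) := by
    funext t
    unfold ee
    congr 1
    push_cast
    ring
  rw [e, integral_exp_mul_complex hc]
  have h1 : Complex.exp ((-(n : ℂ) * Complex.I) * ((2 * Real.pi : ℝ) : ℂ)) = 1 := by
    have := Complex.exp_int_mul_two_pi_mul_I (-n)
    rw [← this]
    congr 1
    push_cast
    ring
  rw [h1]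
  simp

private theorem i_one (n : ℤ) : IntervalIntegrable (fun t : ℝ => ee (-((n : ℝ) * t))) volume 0 (2 * Real.pi) := by
  refine Continuous.intervalIntegrable ?_ _ _
  exact continuous_ee.comp (by fun_prop)

private theorem i_beta (h : Adm β P) (n : ℤ) :
    IntervalIntegrable (fun t : ℝ => β t * ee (-((n : ℝ) * t))) volume 0 (2 * Real.pi) := by
  refine intg_of_bddC (C := 2) ?_ (fun t => ?_) _ _
  · exact h.mb.mul (continuous_ee.measurable.comp (by fun_prop))
  · rw [norm_mul, norm_ee, mul_one]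
    exact beta_le h t

private theorem fc_f0 (h : Adm β P) (n : ℤ) :
    fc (fun t => f0 (β t)) n = (if n = 0 then 1 else 0) + fc β n := by
  unfold fc
  have e : (fun t : ℝ => f0 (β t) * ee (-((n : ℝ) * t))) =
      fun t : ℝ => ee (-((n : ℝ) * t)) + β t * ee (-((n : ℝ) * t)) := by
    funext t
    unfold f0
    ring
  rw [e, intervalIntegral.integral_add (i_one n) (i_beta h n), mul_add]
  congr 1
  split_ifs with hn
  · subst hn
    have hpi : (Real.pi : ℂ) ≠ 0 := by exact_mod_cast Real.pi_ne_zero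
    simp only [Int.cast_zero, zero_mul, neg_zero, ee_zero]
    rw [intervalIntegral.integral_const]
    simp
    field_simp
  · rw [int_ee_ne hn, mul_zero]

private theorem conj_nn (n : ℕ) (z : ℂ) :
    (starRingEnd ℂ) (nn n z) = (‖z‖ : ℂ) * ee ((n : ℝ) * z.arg) := by
  by_cases hz : z = 0
  · subst hz; simp [nn]
  have h0 : (‖z‖ : ℂ) ≠ 0 := by exact_mod_cast norm_ne_zero_iff.2 hz
  unfold nn
  rw [map_mul, map_pow, map_div₀, Complex.conj_conj, Complex.conj_ofReal]
  congr 1
  have e1 : z / (‖z‖ : ℂ) = ee z.arg := by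
    rw [div_eq_iff h0, mul_comm]
    exact (Complex.norm_mul_exp_arg_mul_I z).symm
  have := ee_int_mul (n : ℤ) z.arg
  rw [zpow_natCast] at this
  rw [e1, ← this]
  push_cast
  rfl

/-- the value of the signed support function at one edge -/
private theorem edge (h2 : StSgn) (h : Adm β P) (z : ℂ) :
    (Summable fun k : ℕ => ‖HH β k‖) ∧
    (z * (starRingEnd ℂ) (∫ t in (z.arg - Real.pi)..z.arg, E0 β t)).im
      = 2 * ((1 + b1 β) * ‖z‖ + ∑' k : ℕ, (HH β k * (starRingEnd ℂ) (nn (2 * k + 2) z)).re) := by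
  have hF : Measurable (fun t => f0 (β t)) := by
    unfold f0
    exact measurable_const.add h.mb
  have hb : ∃ C, ∀ t, ‖f0 (β t)‖ ≤ C := ⟨3, fun t => by
    unfold f0
    refine (norm_add_le _ _).trans ?_
    rw [norm_one]
    linarith [beta_le h t]⟩
  obtain ⟨hs, hv⟩ := h2 (fun t => f0 (β t)) hF hb (fun t => by simp only [h.perb])
  have eH : ∀ k : ℕ, fc (fun t => f0 (β t)) (2 * (k : ℤ) + 2) / (2 * k + 3)
      - (starRingEnd ℂ) (fc (fun t => f0 (β t)) (-(2 * (k : ℤ) + 2))) / (2 * k + 1) = HH β k := by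
    intro k
    rw [fc_f0 h, fc_f0 h, if_neg (by omega), if_neg (by omega), zero_add, zero_add]
    rfl
  simp only [eH] at hs hv
  refine ⟨hs, ?_⟩
  have hz : z = (‖z‖ : ℂ) * ee z.arg := (Complex.norm_mul_exp_arg_mul_I z).symm
  have e1 : (z * (starRingEnd ℂ) (∫ t in (z.arg - Real.pi)..z.arg, E0 β t)).im
      = ‖z‖ * (ee z.arg * (starRingEnd ℂ) (∫ t in (z.arg - Real.pi)..z.arg, ee t * f0 (β t))).im := by
    conv_lhs => rw [hz]
    have : (‖z‖ : ℂ) * ee z.arg = z := hz.symm
    rw [this]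
    have e2 : z * (starRingEnd ℂ) (∫ t in (z.arg - Real.pi)..z.arg, E0 β t) =
      (‖z‖ : ℂ) * (ee z.arg * (starRingEnd ℂ) (∫ t in (z.arg - Real.pi)..z.arg, ee t * f0 (β t))) := by
      rw [← mul_assoc, this]
      rfl
    rw [e2, Complex.im_ofReal_mul]
  rw [e1, hv, fc_f0 h, if_pos rfl]
  have e3 : ∀ k : ℕ, (HH β k * (starRingEnd ℂ) (nn (2 * k + 2) z)).re
      = ‖z‖ * (HH β k * ee ((2 * (k : ℝ) + 2) * z.arg)).re := by
    intro k
    rw [conj_nn]
    push_cast
    rw [← Complex.re_ofReal_mul]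
    congr 1
    ring
  simp_rw [e3]
  rw [tsum_mul_left]
  have e4 : (1 + fc β 0).re = 1 + b1 β := by
    unfold b1
    rw [Complex.add_re, Complex.one_re]
  rw [e4]
  ring

private theorem F1_shift (t : ℝ) : F1 β P (t + Real.pi / 3) = ee t * f1 (β t) (P t) := by
  unfold F1
  rw [add_sub_cancel_right, f1_eq]
  unfold E1 vv
  rw [f1_eq]
  ring

private theorem F2_shift (t : ℝ) : F2 β P (t + 2 * Real.pi / 3) = ee t * f2 (β t) (P t) := by
  unfold F2
  rw [add_sub_cancel_right, f2_eq]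
  unfold E2 vv
  rw [f2_eq]
  ring

private theorem nn_int {n : ℕ} {f : ℝ → ℂ} (hf : Measurable f) {C : ℝ} (hC : ∀ t, ‖f t‖ ≤ C) :
    IntervalIntegrable (fun t => nn n (f t)) volume 0 (2 * Real.pi) :=
  intg_of_bddC ((measurable_nn n).comp hf) (fun t => (norm_nn_le n _).trans (hC t)) _ _

private theorem shiftC' {g : ℝ → ℂ} (hg : ∀ t, g (t + 2 * Real.pi) = g t) (a : ℝ) :
    ∫ t in (0 : ℝ)..(2 * Real.pi), g t = ∫ t in (0 : ℝ)..(2 * Real.pi), g (t + a) := by
  rw [int_per hg a, intervalIntegral.integral_comp_add_right (fun t => g t), zero_add, add_comm]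

private theorem int_Q (h : Adm β P) (n : ℕ) :
    ∫ θ in (0 : ℝ)..(2 * Real.pi), (nn n (F1 β P θ) + nn n (F2 β P θ))
      = (2 * Real.pi : ℂ) * sN β P n := by
  have hpi : (Real.pi : ℂ) ≠ 0 := by exact_mod_cast Real.pi_ne_zero
  rw [intervalIntegral.integral_add (nn_int (F1_meas h) (F1_le h)) (nn_int (F2_meas h) (F2_le h)),
    shiftC' (g := fun θ => nn n (F1 β P θ)) (fun t => by simp only [F1_per h]) (Real.pi / 3),
    shiftC' (g := fun θ => nn n (F2 β P θ)) (fun t => by simp only [F2_per h]) (2 * Real.pi / 3)]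
  simp only [F1_shift, F2_shift]
  have m1' : Measurable (fun t => ee t * f1 (β t) (P t)) := m1 h.mb h.mp
  have m2' : Measurable (fun t => ee t * f2 (β t) (P t)) := m2 h.mb h.mp
  unfold sN
  rw [intervalIntegral.integral_add
    (nn_int m1' fun t => f1_le (beta_le h t) (P_le h t) t)
    (nn_int m2' fun t => f2_le (beta_le h t) (P_le h t) t)]
  field_simp

/-- MODULE C0N -/
theorem hC0N (h1 : StA0Q) (h2 : StSgn) : StC0N := by
  intro β P h _
  have hpi := Real.pi_pos
  refine ⟨(edge h2 h 0).1, ?_⟩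
  have hs := (edge h2 h 0).1
  have hA := h1 β P h (fun θ => (F1 β P θ).arg) (fun θ => (F2 β P θ).arg)
    (Complex.measurable_arg.comp (F1_meas h)) (Complex.measurable_arg.comp (F2_meas h))
  -- the series
  set Q : ℕ → ℝ → ℂ := fun n θ => nn n (F1 β P θ) + nn n (F2 β P θ) with hQ
  have hQm : ∀ n, Measurable (Q n) := fun n =>
    ((measurable_nn n).comp (F1_meas h)).add ((measurable_nn n).comp (F2_meas h))
  have hQb : ∀ n θ, ‖Q n θ‖ ≤ 18 := by
    intro n θ
    refine (norm_add_le _ _).trans ?_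
    linarith [(norm_nn_le n (F1 β P θ)).trans (F1_le h θ), (norm_nn_le n (F2 β P θ)).trans (F2_le h θ)]
  have hQi : ∀ n, IntervalIntegrable (Q n) volume 0 (2 * Real.pi) := fun n =>
    intg_of_bddC (hQm n) (hQb n) _ _
  have hQI : ∀ n, ∫ θ in (0 : ℝ)..(2 * Real.pi), Q n θ = (2 * Real.pi : ℂ) * sN β P n := fun n =>
    int_Q h n
  have hb : ∀ (k : ℕ) (w : ℂ), ‖w‖ ≤ 18 → |(HH β k * (starRingEnd ℂ) w).re| ≤ 18 * ‖HH β k‖ := by
    intro k w hw
    refine (Complex.abs_re_le_norm _).trans ?_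
    rw [norm_mul, Complex.norm_conj, mul_comm]
    exact mul_le_mul_of_nonneg_right hw (norm_nonneg _)
  have hsum : ∀ w : ℕ → ℂ, (∀ k, ‖w k‖ ≤ 18) →
      Summable fun k : ℕ => (HH β k * (starRingEnd ℂ) (w k)).re := by
    intro w hw
    refine Summable.of_norm_bounded (hs.mul_left 18) fun k => ?_
    rw [Real.norm_eq_abs]
    exact hb k _ (hw k)
  have hpt : ∀ θ : ℝ,
      (F1 β P θ * (starRingEnd ℂ) (∫ t in ((F1 β P θ).arg - Real.pi)..((F1 β P θ).arg), E0 β t)).im
      + (F2 β P θ * (starRingEnd ℂ) (∫ t in ((F2 β P θ).arg - Real.pi)..((F2 β P θ).arg), E0 β t)).im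
      = 2 * ((1 + b1 β) * (Q 0 θ).re)
        + 2 * ∑' k : ℕ, (HH β k * (starRingEnd ℂ) (Q (2 * k + 2) θ)).re := by
    intro θ
    rw [(edge h2 h (F1 β P θ)).2, (edge h2 h (F2 β P θ)).2]
    have s1 := hsum (fun k => nn (2 * k + 2) (F1 β P θ)) (fun k =>
      ((norm_nn_le _ _).trans (F1_le h θ)).trans (by norm_num))
    have s2 := hsum (fun k => nn (2 * k + 2) (F2 β P θ)) (fun k =>
      ((norm_nn_le _ _).trans (F2_le h θ)).trans (by norm_num))
    have e : ∀ k : ℕ, (HH β k * (starRingEnd ℂ) (Q (2 * k + 2) θ)).re =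
        (HH β k * (starRingEnd ℂ) (nn (2 * k + 2) (F1 β P θ))).re
        + (HH β k * (starRingEnd ℂ) (nn (2 * k + 2) (F2 β P θ))).re := by
      intro k
      simp only [hQ]
      rw [map_add, mul_add, Complex.add_re]
    simp_rw [e]
    rw [s1.tsum_add s2]
    have e0 : (Q 0 θ).re = ‖F1 β P θ‖ + ‖F2 β P θ‖ := by
      simp only [hQ]
      rw [nn_zero, nn_zero, Complex.add_re, Complex.ofReal_re, Complex.ofReal_re]
    rw [e0]
    ring
  simp_rw [hpt] at hA
  -- integrate
  have hfi : ∀ k : ℕ, IntervalIntegrable (fun θ => (HH β k * (starRingEnd ℂ) (Q (2 * k + 2) θ)).re)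
      volume 0 (2 * Real.pi) := by
    intro k
    refine intg_of_bdd (C := 18 * ‖HH β k‖) ?_ (fun θ => hb k _ (hQb _ θ)) _ _
    exact Complex.measurable_re.comp ((Complex.continuous_conj.measurable.comp (hQm _)).const_mul _)
  have hint : ∀ k : ℕ, ∫ θ in (0 : ℝ)..(2 * Real.pi), (HH β k * (starRingEnd ℂ) (Q (2 * k + 2) θ)).re
      = 2 * Real.pi * (HH β k * (starRingEnd ℂ) (sN β P (2 * k + 2))).re := by
    intro k
    have e : ∀ θ : ℝ, (HH β k * (starRingEnd ℂ) (Q (2 * k + 2) θ)).re =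
        ((starRingEnd ℂ) (Q (2 * k + 2) θ) * HH β k).re := fun θ => by rw [mul_comm]
    simp_rw [e]
    rw [int_mc _ (hQi _), hQI, map_mul, ← Complex.re_ofReal_mul]
    congr 1
    rw [map_mul, Complex.conj_ofReal]
    have h2c : (starRingEnd ℂ) (2 : ℂ) = 2 := by
      have := Complex.conj_ofReal 2
      simpa using this
    rw [h2c]
    push_cast
    ring
  have hcs := intervalIntegral.hasSum_integral_of_dominated_convergence (μ := volume)
    (a := 0) (b := 2 * Real.pi)
    (F := fun (k : ℕ) θ => (HH β k * (starRingEnd ℂ) (Q (2 * k + 2) θ)).re)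
    (f := fun θ => ∑' k : ℕ, (HH β k * (starRingEnd ℂ) (Q (2 * k + 2) θ)).re)
    (fun k _ => 18 * ‖HH β k‖)
    (fun k => (intervalIntegrable_iff.1 (hfi k)).aestronglyMeasurable)
    (fun k => Filter.Eventually.of_forall fun θ _ => by
      rw [Real.norm_eq_abs]; exact hb k _ (hQb _ θ))
    (Filter.Eventually.of_forall fun θ _ => hs.mul_left 18)
    intervalIntegrable_const
    (Filter.Eventually.of_forall fun θ _ => (hsum _ (fun k => hQb _ θ)).hasSum)
  simp_rw [hint] at hcs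
  have hmeas : IntervalIntegrable
      (fun θ => ∑' k : ℕ, (HH β k * (starRingEnd ℂ) (Q (2 * k + 2) θ)).re) volume 0 (2 * Real.pi) := by
    refine intg_of_bdd (C := ∑' k : ℕ, 18 * ‖HH β k‖) ?_ (fun θ => ?_) _ _
    · exact Measurable.tsum fun k =>
        Complex.measurable_re.comp ((Complex.continuous_conj.measurable.comp (hQm _)).const_mul _)
    · rw [← Real.norm_eq_abs]
      exact tsum_of_norm_bounded (hs.mul_left 18).hasSum fun k => by
        rw [Real.norm_eq_abs]; exact hb k _ (hQb _ θ)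
  have hQ0i : IntervalIntegrable (fun θ => 2 * ((1 + b1 β) * (Q 0 θ).re)) volume 0 (2 * Real.pi) := by
    refine IntervalIntegrable.const_mul ?_ 2
    refine IntervalIntegrable.const_mul ?_ _
    refine intg_of_bdd (C := 18) (Complex.measurable_re.comp (hQm 0)) (fun θ => ?_) _ _
    exact (Complex.abs_re_le_norm _).trans (hQb 0 θ)
  rw [intervalIntegral.integral_add hQ0i (hmeas.const_mul 2), intervalIntegral.integral_const_mul,
    intervalIntegral.integral_const_mul, intervalIntegral.integral_const_mul, ← hcs.tsum_eq,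
    tsum_mul_left] at hA
  have h0 : ∫ θ in (0 : ℝ)..(2 * Real.pi), (Q 0 θ).re = 2 * Real.pi * (sN β P 0).re := by
    have hh := ContinuousLinearMap.intervalIntegral_comp_comm Complex.reCLM (hQi 0)
    simp only [Complex.reCLM_apply] at hh
    rw [hh, hQI]
    have : (2 * (Real.pi : ℂ)) = ((2 * Real.pi : ℝ) : ℂ) := by push_cast; ring
    rw [this, Complex.re_ofReal_mul]
  rw [h0] at hA
  have hfin : 1 / (4 * Real.pi) * (2 * ((1 + b1 β) * (2 * Real.pi * (sN β P 0).re))
      + 2 * (2 * Real.pi * ∑' k : ℕ, (HH β k * (starRingEnd ℂ) (sN β P (2 * k + 2))).re))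
      = (1 + b1 β) * (sN β P 0).re + ∑' k : ℕ, (HH β k * (starRingEnd ℂ) (sN β P (2 * k + 2))).re := by
    field_simp
    ring
  rw [hfin] at hA
  linarith

end Pool.Agent.Helper86.RC
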