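import Pool.Agent.Helper56.RC.StF
import Pool.Agent.Helper57.RC.M_PAR

/-! # Project RC, certificate `κ = 99/100`: module LBT (the master inequality) -/

set_option autoImplicit false

open MeasureTheory Set Filter Metric

namespace Pool.Agent.Helper86.RC

open Helper49.LT hiding sg gam
open Helper49.RC Helper87.RC Helper44.RC Helper56.RC

/-! ### bounds of the moments -/

private theorem nn_norm_LBT (n : ℕ) (z : ℂ) : ‖nn n z‖ ≤ ‖z‖ := by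
  by_cases hz : z = 0
  · subst hz; simp [nn]
  have h0 : ‖z‖ ≠ 0 := norm_ne_zero_iff.2 hz
  unfold nn
  rw [norm_mul, norm_pow, norm_div, Complex.norm_conj, Complex.norm_real, norm_norm,
    div_self h0, one_pow, mul_one]

private theorem sN_le_LBT {β P : ℝ → ℂ} (h : Adm β P) (n : ℕ) : ‖sN β P n‖ ≤ 12 := by
  have hpi := Real.pi_pos
  unfold sN
  have h1 : ‖∫ t in (0 : ℝ)..(2 * Real.pi),
      (nn n (ee t * f1 (β t) (P t)) + nn n (ee t * f2 (β t) (P t)))‖ ≤ 12 * |2 * Real.pi - 0| := by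
    refine intervalIntegral.norm_integral_le_of_norm_le_const fun t _ => ?_
    refine (norm_add_le _ _).trans ?_
    have e1 := (nn_norm_LBT n _).trans (f1_le (beta_le h t) (P_le h t) t)
    have e2 := (nn_norm_LBT n _).trans (f2_le (beta_le h t) (P_le h t) t)
    linarith
  rw [sub_zero, abs_of_pos (by positivity)] at h1
  rw [norm_mul]
  have h2 : ‖(1 / (2 * Real.pi) : ℂ)‖ = 1 / (2 * Real.pi) := by
    rw [norm_div, norm_one, norm_mul, Complex.norm_real, Real.norm_of_nonneg hpi.le]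
    norm_num
  rw [h2]
  calc 1 / (2 * Real.pi) * _ ≤ 1 / (2 * Real.pi) * (12 * (2 * Real.pi)) :=
        mul_le_mul_of_nonneg_left h1 (by positivity)
    _ = 12 := by field_simp

/-! ### algebra -/

private theorem re_conj_LBT (a b : ℂ) : -(‖a‖ * ‖b‖) ≤ (a * (starRingEnd ℂ) b).re := by
  have h1 := Complex.abs_re_le_norm (a * (starRingEnd ℂ) b)
  rw [norm_mul, Complex.norm_conj] at h1
  exact (abs_le.1 h1).1

/-- completion of the square, `k ≥ 1` -/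
private theorem sq1_LBT (c s : ℂ) (ν L : ℝ) (hν : 0 < ν) (hL : 0 < L) :
    -(L / (8 * ν)) * ‖c‖ ^ 2 ≤ (c * (starRingEnd ℂ) s).re + 2 * ν * (‖s‖ ^ 2 / L) := by
  have h1 : (c * (starRingEnd ℂ) s).re + 2 * ν * (‖s‖ ^ 2 / L) - (-(L / (8 * ν)) * ‖c‖ ^ 2) =
      L / (8 * ν) * ((c.re + 4 * ν / L * s.re) ^ 2 + (c.im + 4 * ν / L * s.im) ^ 2) := by
    rw [Complex.sq_norm, Complex.sq_norm, Complex.normSq_apply, Complex.normSq_apply,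
      Complex.mul_re, Complex.conj_re, Complex.conj_im]
    field_simp
    ring
  have h2 : 0 ≤ L / (8 * ν) * ((c.re + 4 * ν / L * s.re) ^ 2 + (c.im + 4 * ν / L * s.im) ^ 2) := by
    positivity
  linarith

/-- completion of the square, `k = 0` -/
private theorem sq0_LBT (a s c L : ℂ) (ν : ℝ) (hν : 0 < ν) :
    2 / 3 * ‖L‖ ^ 2 - 3 / (8 * (1 + ν)) * ‖c + (4 / 3 : ℝ) * L‖ ^ 2
        - 1 / (1 + ν) * (‖a - L‖ * ‖((4 * ν / 3 : ℝ) : ℂ) * L - c‖)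
      ≤ 2 / 3 * ‖a + s‖ ^ 2 + (c * (starRingEnd ℂ) s).re + 2 * ν * (‖s‖ ^ 2 / 3) := by
  have hn : 0 < 1 + ν := by linarith
  have h0 := re_conj_LBT (a - L) (((4 * ν / 3 : ℝ) : ℂ) * L - c)
  have h1 : 2 / 3 * ‖a + s‖ ^ 2 + (c * (starRingEnd ℂ) s).re + 2 * ν * (‖s‖ ^ 2 / 3)
      - (2 / 3 * ‖L‖ ^ 2 - 3 / (8 * (1 + ν)) * ‖c + (4 / 3 : ℝ) * L‖ ^ 2) =
      2 / 3 * (1 + ν) * ((s.re + 3 / (4 * (1 + ν)) * (4 / 3 * a.re + c.re)) ^ 2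
        + (s.im + 3 / (4 * (1 + ν)) * (4 / 3 * a.im + c.im)) ^ 2)
      + 2 * ν / (3 * (1 + ν)) * ((a.re - L.re) ^ 2 + (a.im - L.im) ^ 2)
      + 1 / (1 + ν) * ((a - L) * (starRingEnd ℂ) (((4 * ν / 3 : ℝ) : ℂ) * L - c)).re := by
    simp only [Complex.sq_norm, Complex.normSq_apply, Complex.mul_re, Complex.mul_im,
      Complex.conj_re, Complex.conj_im, Complex.add_re, Complex.add_im, Complex.sub_re,
      Complex.sub_im, Complex.ofReal_re, Complex.ofReal_im]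
    field_simp
    ring
  have h2 : 0 ≤ 2 / 3 * (1 + ν) * ((s.re + 3 / (4 * (1 + ν)) * (4 / 3 * a.re + c.re)) ^ 2
        + (s.im + 3 / (4 * (1 + ν)) * (4 / 3 * a.im + c.im)) ^ 2)
      + 2 * ν / (3 * (1 + ν)) * ((a.re - L.re) ^ 2 + (a.im - L.im) ^ 2) := by positivity
  have h3 : -(1 / (1 + ν) * (‖a - L‖ * ‖((4 * ν / 3 : ℝ) : ℂ) * L - c‖)) ≤
      1 / (1 + ν) * ((a - L) * (starRingEnd ℂ) (((4 * ν / 3 : ℝ) : ℂ) * L - c)).re := by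
    rw [← mul_neg]
    exact mul_le_mul_of_nonneg_left h0 (by positivity)
  linarith

/-! ### summability -/

private theorem summ_LBT {u w : ℕ → ℂ} (hs : Summable fun k : ℕ => ‖u k‖ ^ 2 + ‖w k‖ ^ 2) (C : ℝ)
    (f : ℕ → ℝ) (hf : ∀ k, |f k| ≤ C * (‖u k‖ ^ 2 + ‖w k‖ ^ 2)) : Summable f :=
  Summable.of_norm_bounded (hs.mul_left C) (fun k => by rw [Real.norm_eq_abs]; exact hf k)

private theorem gam_LBT (d ρ : ℝ) (n : ℤ) : 0 ≤ gam d ρ n ∧ gam d ρ n ≤ 1 := by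
  unfold gam
  have h1 := Real.abs_cos_le_one (2 * Real.pi * (n + 1) / 3 + 2 * n * d)
  have h2 := Real.abs_cos_le_one (n * ρ)
  have h3 : |Real.cos (2 * Real.pi * (n + 1) / 3 + 2 * n * d) * Real.cos (n * ρ)| ≤ 1 := by
    rw [abs_mul]
    exact mul_le_one₀ h1 (abs_nonneg _) h2
  obtain ⟨h4, h5⟩ := abs_le.1 h3
  constructor <;> nlinarith

private theorem odd_summ_LBT : Summable fun k : ℕ => 1 / (2 * (k : ℝ) + 1) ^ 2 := by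
  have h1 : Summable fun k : ℕ => 1 / ((k : ℝ) + 1) ^ 2 := by
    have h2 := (summable_nat_add_iff 1).2 (Real.summable_one_div_nat_pow.2 (le_refl 2))
    refine h2.congr fun k => ?_
    push_cast
    rfl
  refine Summable.of_nonneg_of_le (fun k => by positivity) (fun k => ?_) h1
  have hk : (0 : ℝ) ≤ k := Nat.cast_nonneg k
  exact one_div_le_one_div_of_le (by positivity) (by nlinarith)

/-! ### the parts of the block form -/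

/-- the part of the block form without the moments -/
private noncomputable def Dk (β : ℝ → ℂ) (k : ℕ) : ℝ :=
  ‖uu β k‖ ^ 2 / (2 * k + 3) - ‖ww β k‖ ^ 2 / (2 * k + 1)

private noncomputable def Ek (β : ℝ → ℂ) (d ρ : ℝ) (k : ℕ) : ℝ :=
  4 * gam d ρ (2 * k + 3) / (2 * k + 3) * ‖uu β k‖ ^ 2
    - 4 * gam d ρ (-(2 * k + 1)) / (2 * k + 1) * ‖ww β k‖ ^ 2

/-- the part of the block form from the moments -/
private noncomputable def Rk' (μ ν : ℝ) (k : ℕ) (u w : ℂ) : ℝ :=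
  if k = 0 then
      2 / 3 * ‖(3 / 2 : ℂ) * (starRingEnd ℂ) w - (1 / 2 : ℂ) * u‖ ^ 2
      - 3 / (8 * (1 + ν)) * ‖(((gg μ 0 - ν - 2) / 3 : ℝ) : ℂ) * u
          + ((2 - gg μ 0 - 2 * ν : ℝ) : ℂ) * (starRingEnd ℂ) w‖ ^ 2
    else
      - (((2 * (k : ℝ) + 2) ^ 2 - 1) / (8 * ν)) * ‖(((gg μ k + ν * chu k) / (2 * k + 3) : ℝ) : ℂ) * u
          - (((gg μ k + ν * chw k) / (2 * k + 1) : ℝ) : ℂ) * (starRingEnd ℂ) w‖ ^ 2

private theorem QB_eq_LBT (β : ℝ → ℂ) (μ ν d ρ : ℝ) (k : ℕ) :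
    QB μ ν d ρ k (uu β k) (ww β k) =
      Dk β k + (1 - μ) * Ek β d ρ k + Rk' μ ν k (uu β k) (ww β k) := by
  unfold QB Dk Ek Rk'
  ring

/-- the coefficient of the moment -/
private noncomputable def cK (β : ℝ → ℂ) (μ ν : ℝ) (k : ℕ) : ℂ :=
  (((gg μ k + ν * chu k) / (2 * k + 3) : ℝ) : ℂ) * uu β k
    - (((gg μ k + ν * chw k) / (2 * k + 1) : ℝ) : ℂ) * (starRingEnd ℂ) (ww β k)

private theorem cK_eq_LBT (β : ℝ → ℂ) (μ ν : ℝ) (k : ℕ) :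
    cK β μ ν k = (gg μ k : ℂ) * HH β k + ((2 * ν : ℝ) : ℂ) * GG β k := by
  unfold cK HH GG
  push_cast
  ring

private theorem cK_re_LBT (β : ℝ → ℂ) (μ ν : ℝ) (k : ℕ) (s : ℂ) :
    (cK β μ ν k * (starRingEnd ℂ) s).re =
      2 * (HH β k * (starRingEnd ℂ) s).re
        - μ * Real.sqrt 3 * ((-1) ^ (k + 1) * (HH β k * (starRingEnd ℂ) s).re)
        + 2 * ν * (GG β k * (starRingEnd ℂ) s).re := by
  rw [cK_eq_LBT, add_mul, mul_assoc, mul_assoc, Complex.add_re, Complex.re_ofReal_mul,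
    Complex.re_ofReal_mul]
  unfold gg
  ring

private theorem ch_LBT (k : ℕ) : |chu k| ≤ 2 ∧ |chw k| ≤ 2 := by
  unfold chu chw
  constructor <;> split_ifs <;> norm_num [abs_of_nonneg, abs_of_nonpos]

private theorem gg_LBT {μ : ℝ} (h0 : 0 ≤ μ) (h1 : μ ≤ 1) (k : ℕ) : |gg μ k| ≤ 4 := by
  unfold gg
  have h3 : Real.sqrt 3 ≤ 2 := by
    rw [Real.sqrt_le_left (by norm_num)]; norm_num
  have h3' := Real.sqrt_nonneg 3
  have h4 : |μ * Real.sqrt 3| ≤ 2 := by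
    rw [abs_of_nonneg (by positivity)]
    nlinarith
  have h5 : |μ * Real.sqrt 3 * (-1) ^ (k + 1)| ≤ 2 := by
    rw [abs_mul, abs_pow, abs_neg, abs_one, one_pow, mul_one]
    exact h4
  obtain ⟨h6, h7⟩ := abs_le.1 h5
  rw [abs_le]
  constructor <;> linarith

private theorem nsub_LBT (a b : ℂ) : ‖a - b‖ ^ 2 ≤ 2 * (‖a‖ ^ 2 + ‖b‖ ^ 2) := by
  have h1 := norm_sub_le a b
  have h2 := norm_nonneg (a - b)
  nlinarith [sq_nonneg (‖a‖ - ‖b‖), norm_nonneg a, norm_nonneg b]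

/-- bound of the part from the moments, `k ≥ 1` -/
private theorem Rk_le_LBT (β : ℝ → ℂ) {μ ν : ℝ} (h0 : 0 ≤ μ) (h1 : μ ≤ 1) (hν : 0 < ν) (k : ℕ) :
    ((2 * (k : ℝ) + 2) ^ 2 - 1) / (8 * ν) * ‖cK β μ ν k‖ ^ 2 ≤
      3 * (4 + 2 * ν) ^ 2 / (4 * ν) * (‖uu β k‖ ^ 2 + ‖ww β k‖ ^ 2) := by
  have hk : (0 : ℝ) ≤ k := Nat.cast_nonneg k
  obtain ⟨c1, c2⟩ := ch_LBT k
  have c3 := gg_LBT h0 h1 k
  have hA : |gg μ k + ν * chu k| ≤ 4 + 2 * ν := by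
    refine (abs_add_le _ _).trans ?_
    rw [abs_mul, abs_of_pos hν]
    nlinarith
  have hB : |gg μ k + ν * chw k| ≤ 4 + 2 * ν := by
    refine (abs_add_le _ _).trans ?_
    rw [abs_mul, abs_of_pos hν]
    nlinarith
  have hA2 : (gg μ k + ν * chu k) ^ 2 ≤ (4 + 2 * ν) ^ 2 := sq_le_sq' (abs_le.1 hA).1 (abs_le.1 hA).2
  have hB2 : (gg μ k + ν * chw k) ^ 2 ≤ (4 + 2 * ν) ^ 2 := sq_le_sq' (abs_le.1 hB).1 (abs_le.1 hB).2
  have hc : ‖cK β μ ν k‖ ^ 2 ≤ 2 * ((4 + 2 * ν) ^ 2 / (2 * k + 3) ^ 2 * ‖uu β k‖ ^ 2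
      + (4 + 2 * ν) ^ 2 / (2 * k + 1) ^ 2 * ‖ww β k‖ ^ 2) := by
    refine (nsub_LBT _ _).trans ?_
    rw [norm_mul, norm_mul, mul_pow, mul_pow, Complex.norm_conj, Complex.norm_real, Complex.norm_real,
      Real.norm_eq_abs, Real.norm_eq_abs, sq_abs, sq_abs, div_pow, div_pow]
    gcongr
  have hL : 0 ≤ ((2 * (k : ℝ) + 2) ^ 2 - 1) / (8 * ν) := by
    refine div_nonneg ?_ (by positivity)
    nlinarith
  refine (mul_le_mul_of_nonneg_left hc hL).trans ?_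
  have e1 : ((2 * (k : ℝ) + 2) ^ 2 - 1) / (2 * k + 3) ^ 2 ≤ 3 := by
    rw [div_le_iff₀ (by positivity)]; nlinarith
  have e2 : ((2 * (k : ℝ) + 2) ^ 2 - 1) / (2 * k + 1) ^ 2 ≤ 3 := by
    rw [div_le_iff₀ (by positivity)]; nlinarith
  calc ((2 * (k : ℝ) + 2) ^ 2 - 1) / (8 * ν) * (2 * ((4 + 2 * ν) ^ 2 / (2 * k + 3) ^ 2 * ‖uu β k‖ ^ 2
      + (4 + 2 * ν) ^ 2 / (2 * k + 1) ^ 2 * ‖ww β k‖ ^ 2))
      = (4 + 2 * ν) ^ 2 / (4 * ν) * (((2 * (k : ℝ) + 2) ^ 2 - 1) / (2 * k + 3) ^ 2 * ‖uu β k‖ ^ 2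
        + ((2 * (k : ℝ) + 2) ^ 2 - 1) / (2 * k + 1) ^ 2 * ‖ww β k‖ ^ 2) := by
        field_simp
        ring
    _ ≤ (4 + 2 * ν) ^ 2 / (4 * ν) * (3 * ‖uu β k‖ ^ 2 + 3 * ‖ww β k‖ ^ 2) := by
        gcongr
    _ = _ := by ring

private theorem Rk_succ_LBT (β : ℝ → ℂ) (μ ν : ℝ) (k : ℕ) :
    Rk' μ ν (k + 1) (uu β (k + 1)) (ww β (k + 1)) =
      -(((2 * ((k + 1 : ℕ) : ℝ) + 2) ^ 2 - 1) / (8 * ν)) * ‖cK β μ ν (k + 1)‖ ^ 2 := by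
  unfold Rk'
  rw [if_neg (by omega)]
  rfl

private theorem Rk_summ_LBT {β : ℝ → ℂ} (hs : Summable fun k : ℕ => ‖uu β k‖ ^ 2 + ‖ww β k‖ ^ 2)
    {μ ν : ℝ} (h0 : 0 ≤ μ) (h1 : μ ≤ 1) (hν : 0 < ν) :
    Summable fun k : ℕ => Rk' μ ν k (uu β k) (ww β k) := by
  rw [← summable_nat_add_iff 1]
  have hs1 : Summable fun k : ℕ => ‖uu β (k + 1)‖ ^ 2 + ‖ww β (k + 1)‖ ^ 2 :=
    (summable_nat_add_iff (f := fun k : ℕ => ‖uu β k‖ ^ 2 + ‖ww β k‖ ^ 2) 1).2 hs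
  refine summ_LBT (u := fun k => uu β (k + 1)) (w := fun k => ww β (k + 1)) hs1
    (3 * (4 + 2 * ν) ^ 2 / (4 * ν)) _ (fun k => ?_)
  rw [Rk_succ_LBT, neg_mul, abs_neg, abs_of_nonneg]
  · exact Rk_le_LBT β h0 h1 hν (k + 1)
  · refine mul_nonneg (div_nonneg ?_ (by positivity)) (by positivity)
    have hk : (0 : ℝ) ≤ ((k + 1 : ℕ) : ℝ) := Nat.cast_nonneg _
    nlinarith

private theorem Dk_summ_LBT {β : ℝ → ℂ} (hs : Summable fun k : ℕ => ‖uu β k‖ ^ 2 + ‖ww β k‖ ^ 2) :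
    Summable fun k : ℕ => Dk β k := by
  refine summ_LBT hs 1 _ (fun k => ?_)
  have hk : (0 : ℝ) ≤ k := Nat.cast_nonneg k
  unfold Dk
  have e1 : ‖uu β k‖ ^ 2 / (2 * k + 3) ≤ ‖uu β k‖ ^ 2 := div_le_self (by positivity) (by linarith)
  have e2 : ‖ww β k‖ ^ 2 / (2 * k + 1) ≤ ‖ww β k‖ ^ 2 := div_le_self (by positivity) (by linarith)
  have e3 : 0 ≤ ‖uu β k‖ ^ 2 / (2 * k + 3) := by positivity
  have e4 : 0 ≤ ‖ww β k‖ ^ 2 / (2 * k + 1) := by positivity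
  rw [abs_le]
  constructor <;> linarith [sq_nonneg ‖uu β k‖, sq_nonneg ‖ww β k‖]

private theorem Ek_summ_LBT {β : ℝ → ℂ} (hs : Summable fun k : ℕ => ‖uu β k‖ ^ 2 + ‖ww β k‖ ^ 2)
    (d ρ : ℝ) : Summable fun k : ℕ => Ek β d ρ k := by
  refine summ_LBT hs 4 _ (fun k => ?_)
  have hk : (0 : ℝ) ≤ k := Nat.cast_nonneg k
  unfold Ek
  obtain ⟨a1, a2⟩ := gam_LBT d ρ (2 * k + 3)
  obtain ⟨b1, b2⟩ := gam_LBT d ρ (-(2 * k + 1))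
  have e1 : 4 * gam d ρ (2 * k + 3) / (2 * k + 3) ≤ 4 := by
    rw [div_le_iff₀ (by positivity)]; nlinarith
  have e2 : 4 * gam d ρ (-(2 * k + 1)) / (2 * k + 1) ≤ 4 := by
    rw [div_le_iff₀ (by positivity)]; nlinarith
  have e3 : 0 ≤ 4 * gam d ρ (2 * k + 3) / (2 * k + 3) := by positivity
  have e4 : 0 ≤ 4 * gam d ρ (-(2 * k + 1)) / (2 * k + 1) := by positivity
  have e5 := mul_le_mul_of_nonneg_right e1 (sq_nonneg ‖uu β k‖)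
  have e6 := mul_le_mul_of_nonneg_right e2 (sq_nonneg ‖ww β k‖)
  have e7 := mul_nonneg e3 (sq_nonneg ‖uu β k‖)
  have e8 := mul_nonneg e4 (sq_nonneg ‖ww β k‖)
  rw [abs_le]
  constructor <;> linarith [sq_nonneg ‖uu β k‖, sq_nonneg ‖ww β k‖]

private theorem GG_summ_LBT {β : ℝ → ℂ} (hs : Summable fun k : ℕ => ‖uu β k‖ ^ 2 + ‖ww β k‖ ^ 2) :
    Summable fun k : ℕ => ‖GG β k‖ := by
  refine Summable.of_nonneg_of_le (fun k => norm_nonneg _) (fun k => ?_)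
    (hs.add (odd_summ_LBT.mul_left 2))
  have hk : (0 : ℝ) ≤ k := Nat.cast_nonneg k
  obtain ⟨c1, c2⟩ := ch_LBT k
  have n1 : ‖(2 * (k : ℂ) + 3)‖ = 2 * k + 3 := by
    have : (2 * (k : ℂ) + 3) = ((2 * k + 3 : ℝ) : ℂ) := by push_cast; rfl
    rw [this, Complex.norm_real, Real.norm_of_nonneg (by positivity)]
  have n2 : ‖(2 * (k : ℂ) + 1)‖ = 2 * k + 1 := by
    have : (2 * (k : ℂ) + 1) = ((2 * k + 1 : ℝ) : ℂ) := by push_cast; rfl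
    rw [this, Complex.norm_real, Real.norm_of_nonneg (by positivity)]
  have h1 : ‖GG β k‖ ≤ 1 / 2 * (2 * ‖uu β k‖ / (2 * k + 3) + 2 * ‖ww β k‖ / (2 * k + 1)) := by
    unfold GG
    rw [norm_mul]
    have : ‖(1 / 2 : ℂ)‖ = 1 / 2 := by norm_num
    rw [this]
    refine mul_le_mul_of_nonneg_left ((norm_sub_le _ _).trans ?_) (by norm_num)
    rw [norm_div, norm_div, norm_mul, norm_mul, n1, n2, Complex.norm_conj, Complex.norm_real,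
      Complex.norm_real, Real.norm_eq_abs, Real.norm_eq_abs]
    gcongr
  have h2 : ‖uu β k‖ / (2 * k + 3) ≤ ‖uu β k‖ ^ 2 + 1 / (2 * (k : ℝ) + 1) ^ 2 := by
    have e1 : ‖uu β k‖ / (2 * k + 3) ≤ ‖uu β k‖ / (2 * k + 1) := by gcongr; norm_num
    have e2 : ‖uu β k‖ / (2 * k + 1) = ‖uu β k‖ * (1 / (2 * k + 1)) := by ring
    have e3 : (1 / (2 * (k : ℝ) + 1)) ^ 2 = 1 / (2 * (k : ℝ) + 1) ^ 2 := by
      rw [div_pow, one_pow]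
    rw [← e3]
    nlinarith [sq_nonneg (‖uu β k‖ - 1 / (2 * k + 1)), sq_nonneg ‖uu β k‖,
      sq_nonneg (1 / (2 * (k : ℝ) + 1))]
  have h3 : ‖ww β k‖ / (2 * k + 1) ≤ ‖ww β k‖ ^ 2 + 1 / (2 * (k : ℝ) + 1) ^ 2 := by
    have e2 : ‖ww β k‖ / (2 * k + 1) = ‖ww β k‖ * (1 / (2 * k + 1)) := by ring
    have e3 : (1 / (2 * (k : ℝ) + 1)) ^ 2 = 1 / (2 * (k : ℝ) + 1) ^ 2 := by
      rw [div_pow, one_pow]
    rw [← e3]
    nlinarith [sq_nonneg (‖ww β k‖ - 1 / (2 * k + 1)), sq_nonneg ‖ww β k‖,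
      sq_nonneg (1 / (2 * (k : ℝ) + 1))]
  calc ‖GG β k‖ ≤ 1 / 2 * (2 * ‖uu β k‖ / (2 * k + 3) + 2 * ‖ww β k‖ / (2 * k + 1)) := h1
    _ = ‖uu β k‖ / (2 * k + 3) + ‖ww β k‖ / (2 * k + 1) := by ring
    _ ≤ _ := by linarith

private theorem bd_summ_LBT {H s : ℕ → ℂ} (hH : Summable fun k => ‖H k‖) (hs : ∀ k, ‖s k‖ ≤ 12) :
    Summable fun k => (H k * (starRingEnd ℂ) (s k)).re := by
  refine Summable.of_norm_bounded (hH.mul_left 12) (fun k => ?_)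
  rw [Real.norm_eq_abs]
  refine (Complex.abs_re_le_norm _).trans ?_
  rw [norm_mul, Complex.norm_conj, mul_comm]
  exact mul_le_mul_of_nonneg_right (hs k) (norm_nonneg _)

/-! ### the theorem -/

private theorem zero_LBT {β P : ℝ → ℂ} (h₆ : StS2m) (h : Adm β P) (hb : ∀ t, ‖β t‖ < 1)
    (μ ν : ℝ) (hν : 0 < ν) :
    Rk' μ ν 0 (uu β 0) (ww β 0)
      - 3 / (2 * (1 + ν)) * mB β * ‖((gg μ 0 + 4 * ν : ℝ) : ℂ) * (starRingEnd ℂ) (ww β 0)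
        - (((gg μ 0 + ν) / 3 : ℝ) : ℂ) * uu β 0‖ ≤
    2 / 3 * ‖sg β P 2‖ ^ 2 + ((cK β μ ν 0 * (starRingEnd ℂ) (sN β P (2 * 0 + 2))).re
      + 2 * ν * (‖sN β P (2 * 0 + 2)‖ ^ 2 / ((2 * ((0 : ℕ) : ℝ) + 2) ^ 2 - 1))) := by
  obtain ⟨g6, g6'⟩ := h₆ β P h hb
  have hn : 0 < 1 + ν := by linarith
  have hc0 : chu 0 = -1 := by unfold chu; norm_num
  have hc1 : chw 0 = 2 := by unfold chw; norm_num
  have k0 := sq0_LBT (s0 β 2) (sN β P 2) (cK β μ ν 0)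
    ((3 / 2 : ℂ) * (starRingEnd ℂ) (ww β 0) - (1 / 2 : ℂ) * uu β 0) ν hν
  have e1 : cK β μ ν 0 + ((4 / 3 : ℝ) : ℂ) *
      ((3 / 2 : ℂ) * (starRingEnd ℂ) (ww β 0) - (1 / 2 : ℂ) * uu β 0) =
      (((gg μ 0 - ν - 2) / 3 : ℝ) : ℂ) * uu β 0
          + ((2 - gg μ 0 - 2 * ν : ℝ) : ℂ) * (starRingEnd ℂ) (ww β 0) := by
    unfold cK
    rw [hc0, hc1]
    push_cast
    ring
  have e2 : ((4 * ν / 3 : ℝ) : ℂ) *
      ((3 / 2 : ℂ) * (starRingEnd ℂ) (ww β 0) - (1 / 2 : ℂ) * uu β 0) - cK β μ ν 0 =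
      ((gg μ 0 + 4 * ν : ℝ) : ℂ) * (starRingEnd ℂ) (ww β 0)
        - (((gg μ 0 + ν) / 3 : ℝ) : ℂ) * uu β 0 := by
    unfold cK
    rw [hc0, hc1]
    push_cast
    ring
  rw [e1, e2] at k0
  set X := ‖((gg μ 0 + 4 * ν : ℝ) : ℂ) * (starRingEnd ℂ) (ww β 0)
        - (((gg μ 0 + ν) / 3 : ℝ) : ℂ) * uu β 0‖ with hX
  have hX0 : 0 ≤ X := norm_nonneg _
  have e3 : 1 / (1 + ν) * (‖s0 β 2 - ((3 / 2 : ℂ) * (starRingEnd ℂ) (ww β 0)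
      - (1 / 2 : ℂ) * uu β 0)‖ * X) ≤ 3 / (2 * (1 + ν)) * mB β * X := by
    calc 1 / (1 + ν) * (‖s0 β 2 - ((3 / 2 : ℂ) * (starRingEnd ℂ) (ww β 0)
      - (1 / 2 : ℂ) * uu β 0)‖ * X) ≤ 1 / (1 + ν) * (3 / 2 * mB β * X) := by
          refine mul_le_mul_of_nonneg_left (mul_le_mul_of_nonneg_right g6 hX0) (by positivity)
      _ = 3 / (2 * (1 + ν)) * mB β * X := by
          field_simp
  have e4 : ((2 * ((0 : ℕ) : ℝ) + 2) ^ 2 - 1) = 3 := by norm_num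
  rw [e4, g6', show 2 * 0 + 2 = 2 from rfl]
  unfold Rk'
  rw [if_pos rfl]
  linarith

theorem hLBT (h₁ : StSpl) (h₂ : StC00) (h₃ : StC0N) (h₄ : StDel) (h₅ : StCoe2) (h₆ : StS2m)
    (h₇ : StInt3) : StLbt := by
  intro β P h hb μ ν d ρ z hμ0 hμ1 hν hρ hdρ hz
  obtain ⟨hs, -, -, -, -⟩ := Pool.Agent.Helper57.RC.hPAR β P h hb
  have sR := Rk_summ_LBT hs hμ0 hμ1 hν
  have sD := Dk_summ_LBT hs
  have sE := Ek_summ_LBT hs d ρ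
  have hQ := ((sD.hasSum.add (sE.hasSum.mul_left (1 - μ))).add sR.hasSum)
  have hQ' : HasSum (fun k : ℕ => QB μ ν d ρ k (uu β k) (ww β k))
      (∑' k, Dk β k + (1 - μ) * ∑' k, Ek β d ρ k + ∑' k, Rk' μ ν k (uu β k) (ww β k)) := by
    simp only [QB_eq_LBT]
    exact hQ
  refine ⟨hQ'.summable, ?_⟩
  rw [hQ'.tsum_eq]
  have g1 := h₁ β P h
  have g2 := h₂ β P h hb
  obtain ⟨sH, g3⟩ := h₃ β P h hb
  obtain ⟨sZ, g4⟩ := h₄ β P h hb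
  have g5 := h₅ β P h hb
  have g7 := h₇ β P h hb d ρ z hρ hdρ hz
  have hsb : ∀ k, ‖sN β P (2 * k + 2)‖ ≤ 12 := fun k => sN_le_LBT h _
  have sHs := bd_summ_LBT sH hsb
  have sGs := bd_summ_LBT (GG_summ_LBT hs) hsb
  have sHs' : Summable fun k : ℕ =>
      (-1) ^ (k + 1) * (HH β k * (starRingEnd ℂ) (sN β P (2 * k + 2))).re := by
    refine Summable.of_norm_bounded sHs.abs (fun k => ?_)
    rw [norm_mul, norm_pow, norm_neg, norm_one, one_pow, one_mul, Real.norm_eq_abs]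
  set T1 := ∑' k : ℕ, (HH β k * (starRingEnd ℂ) (sN β P (2 * k + 2))).re with hT1
  set T2 := ∑' k : ℕ, (-1) ^ (k + 1) * (HH β k * (starRingEnd ℂ) (sN β P (2 * k + 2))).re with hT2
  set T3 := ∑' k : ℕ, ‖sN β P (2 * k + 2)‖ ^ 2 / ((2 * (k : ℝ) + 2) ^ 2 - 1) with hT3
  set T4 := ∑' k : ℕ, (GG β k * (starRingEnd ℂ) (sN β P (2 * k + 2))).re with hT4
  have hM0 := (((sHs.hasSum.mul_left 2).sub (sHs'.hasSum.mul_left (μ * Real.sqrt 3))).add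
    (sGs.hasSum.mul_left (2 * ν))).add (sZ.hasSum.mul_left (2 * ν))
  have hM : HasSum (fun k : ℕ => (cK β μ ν k * (starRingEnd ℂ) (sN β P (2 * k + 2))).re
      + 2 * ν * (‖sN β P (2 * k + 2)‖ ^ 2 / ((2 * (k : ℝ) + 2) ^ 2 - 1)))
      (2 * T1 - μ * Real.sqrt 3 * T2 + 2 * ν * T4 + 2 * ν * T3) := by
    simp only [cK_re_LBT]
    exact hM0
  have hshift : ∑' k : ℕ, Rk' μ ν (k + 1) (uu β (k + 1)) (ww β (k + 1)) ≤
      ∑' k : ℕ, ((cK β μ ν (k + 1) * (starRingEnd ℂ) (sN β P (2 * (k + 1) + 2))).re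
      + 2 * ν * (‖sN β P (2 * (k + 1) + 2)‖ ^ 2 / ((2 * ((k + 1 : ℕ) : ℝ) + 2) ^ 2 - 1))) := by
    refine Summable.tsum_le_tsum (fun k => ?_)
      ((summable_nat_add_iff (f := fun k : ℕ => Rk' μ ν k (uu β k) (ww β k)) 1).2 sR)
      ((summable_nat_add_iff (f := fun k : ℕ => (cK β μ ν k *
        (starRingEnd ℂ) (sN β P (2 * k + 2))).re
        + 2 * ν * (‖sN β P (2 * k + 2)‖ ^ 2 / ((2 * (k : ℝ) + 2) ^ 2 - 1))) 1).2 hM.summable)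
    rw [Rk_succ_LBT]
    refine sq1_LBT _ _ ν _ hν ?_
    have hk : (0 : ℝ) ≤ ((k + 1 : ℕ) : ℝ) := Nat.cast_nonneg _
    nlinarith
  have tR := sR.tsum_eq_zero_add
  have tM := hM.summable.tsum_eq_zero_add
  rw [hM.tsum_eq] at tM
  have h0 := zero_LBT h₆ h hb μ ν hν
  -- the selection bounds
  have hA : μ * (Real.sqrt 3 * ((1 - b1 β) * (sN β P 0).re - T2)) + (1 - μ) *
      (IQ β P d ρ + 11 / 10 * TW β P d ρ 3 z - 1 / 10 * TW β P d ρ 9 (z ^ 3)) ≤ AQQ β P := by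
    have a1 := mul_le_mul_of_nonneg_left g5 hμ0
    have a2 := mul_le_mul_of_nonneg_left g7 (by linarith : 0 ≤ 1 - μ)
    linarith
  have hD := mul_nonneg hν.le g4
  have hN : (sN β P 0).re = SS β P + 2 - b1 β := by unfold SS; ring
  rw [hN] at hA hD g3
  unfold IQ at hA
  have tE : ∑' k : ℕ, (4 * gam d ρ (2 * k + 3) / (2 * k + 3) * ‖uu β k‖ ^ 2
        - 4 * gam d ρ (-(2 * k + 1)) / (2 * k + 1) * ‖ww β k‖ ^ 2) = ∑' k, Ek β d ρ k := rfl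
  have tD : ∑' k : ℕ, (‖uu β k‖ ^ 2 / (2 * k + 3) - ‖ww β k‖ ^ 2 / (2 * k + 1)) = ∑' k, Dk β k := rfl
  rw [tE] at hA
  rw [tD] at g2
  rw [tR, g1]
  unfold FSc F1c
  set X1 := ∑' k : ℕ, 4 * sgm d ρ (2 * k + 2) / (2 * k + 2) * (‖cp P k‖ ^ 2 - ‖cm P (k + 1)‖ ^ 2)
  generalize ∑' k : ℕ, Rk' μ ν (k + 1) (uu β (k + 1)) (ww β (k + 1)) = X2 at *
  generalize ∑' k : ℕ, ((cK β μ ν (k + 1) * (starRingEnd ℂ) (sN β P (2 * (k + 1) + 2))).re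
      + 2 * ν * (‖sN β P (2 * (k + 1) + 2)‖ ^ 2 / ((2 * ((k + 1 : ℕ) : ℝ) + 2) ^ 2 - 1))) = X3 at *
  linarith

end Pool.Agent.Helper86.RC
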